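import Mathlib

set_option autoImplicit false

/-! # Two nonsingular block graphs joined by an edge can be singular -/

namespace Pool.Agent.Results.MP_025d69_co.SingularJoin

/-- the subgraph induced by `B` is connected and has no cut-vertex -/
def NoCut {V : Type} (G : SimpleGraph V) (B : Set V) : Prop :=
  (G.induce B).Connected ∧ ∀ v ∈ B, (G.induce (B \ {v})).Preconnected

/-- `B` is (the vertex set of) a block of `G`: a maximal connected subgraph with no cut-vertex -/
def IsBlock {V : Type} (G : SimpleGraph V) (B : Set V) : Prop :=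
  NoCut G B ∧ ∀ B' : Set V, NoCut G B' → B ⊆ B' → B' = B

/-- a block graph: a connected graph in which every block is complete -/
def IsBlockGraph {V : Type} (G : SimpleGraph V) : Prop :=
  G.Connected ∧ ∀ B : Set V, IsBlock G B → G.IsClique B

open Classical in
/-- the adjacency matrix, with real entries -/
noncomputable def adj {V : Type} (G : SimpleGraph V) : Matrix V V ℝ :=
  fun i j => if G.Adj i j then 1 else 0

/-- the graph obtained from the disjoint union of `G₁` and `G₂` by adding the edge `v₁v₂` -/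
def joinEdge {V₁ V₂ : Type} (G₁ : SimpleGraph V₁) (G₂ : SimpleGraph V₂) (v₁ : V₁) (v₂ : V₂) :
    SimpleGraph (V₁ ⊕ V₂) where
  Adj x y := match x, y with
    | Sum.inl a, Sum.inl b => G₁.Adj a b
    | Sum.inr a, Sum.inr b => G₂.Adj a b
    | Sum.inl a, Sum.inr b => a = v₁ ∧ b = v₂
    | Sum.inr b, Sum.inl a => a = v₁ ∧ b = v₂
  symm := ⟨fun x y h => by
    rcases x with a | a <;> rcases y with b | b
    · exact G₁.adj_symm h
    · exact h
    · exact h
    · exact G₂.adj_symm h⟩
  loopless := ⟨fun x h => by
    rcases x with a | a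
    · exact G₁.loopless.1 _ h
    · exact G₂.loopless.1 _ h⟩

/-- the entries of the adjacency matrix of the graph below -/
def e7 : Fin 7 → Fin 7 → ℤ :=
  ![![0, 1, 0, 0, 1, 0, 0],
    ![1, 0, 1, 1, 0, 0, 0],
    ![0, 1, 0, 1, 0, 0, 0],
    ![0, 1, 1, 0, 0, 0, 0],
    ![1, 0, 0, 0, 0, 1, 1],
    ![0, 0, 0, 0, 1, 0, 1],
    ![0, 0, 0, 0, 1, 1, 0]]

/-- the adjacency matrix of the graph below -/
def A7 : Matrix (Fin 7) (Fin 7) ℤ := fun i j => e7 i j

/-- four times the inverse of `A7` -/
def B7 : Matrix (Fin 7) (Fin 7) ℤ :=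
  !![4, 2, -2, -2, 2, -2, -2;
     2, -1, 1, 1, 1, -1, -1;
     -2, 1, -1, 3, -1, 1, 1;
     -2, 1, 3, -1, -1, 1, 1;
     2, 1, -1, -1, -1, 1, 1;
     -2, -1, 1, 1, 1, -1, 3;
     -2, -1, 1, 1, 1, 3, -1]

/-- the vertex `0` joined to one vertex of each of two triangles -/
def G7 : SimpleGraph (Fin 7) where
  Adj i j := e7 i j = 1
  symm := ⟨by decide⟩
  loopless := ⟨by decide⟩

instance : DecidableRel G7.Adj := fun i j => inferInstanceAs (Decidable (e7 i j = 1))

theorem conn7 : G7.Connected := by
  have h : ∀ v : Fin 7, G7.Reachable 0 v := by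
    have h01 : G7.Adj 0 1 := by decide
    have h12 : G7.Adj 1 2 := by decide
    have h13 : G7.Adj 1 3 := by decide
    have h04 : G7.Adj 0 4 := by decide
    have h45 : G7.Adj 4 5 := by decide
    have h46 : G7.Adj 4 6 := by decide
    intro v
    fin_cases v
    · exact SimpleGraph.Reachable.refl _
    · exact h01.reachable
    · exact h01.reachable.trans h12.reachable
    · exact h01.reachable.trans h13.reachable
    · exact h04.reachable
    · exact h04.reachable.trans h45.reachable
    · exact h04.reachable.trans h46.reachable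
  exact { preconnected := fun u v => (h u).symm.trans (h v) }

/-- some sets of vertices -/
def sides : Fin 6 → Fin 7 → Bool :=
  ![![false, false, true, true, false, false, false],
    ![true, false, false, false, true, true, true],
    ![false, true, true, true, false, false, false],
    ![false, false, false, false, true, true, true],
    ![false, false, false, false, false, true, true],
    ![true, true, true, true, false, false, false]]

/-- the separation property -/
def Sep (c : Fin 7) (k : Fin 6) : Prop :=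
  ∀ a b : Fin 7, sides k a = true → sides k b = false → e7 a b = 1 → a = c ∨ b = c

instance (c : Fin 7) (k : Fin 6) : Decidable (Sep c k) :=
  inferInstanceAs (Decidable
    (∀ a b : Fin 7, sides k a = true → sides k b = false → e7 a b = 1 → a = c ∨ b = c))

/-- a vertex separating `x` from `y`, and the side of `x` -/
theorem sep7 : ∀ x y : Fin 7, x ≠ y → ¬ e7 x y = 1 → ∃ c : Fin 7, c ≠ x ∧ c ≠ y ∧
    ∃ k : Fin 6, sides k x = true ∧ sides k y = false ∧ Sep c k := by
  decide +kernel

theorem block7 : IsBlockGraph G7 := by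
  refine ⟨conn7, ?_⟩
  intro B hB x hx y hy hxy
  by_contra hadj
  obtain ⟨c, hcx, hcy, k, hxs, hys, hsep⟩ := sep7 x y hxy hadj
  set s := sides k with hs
  -- without `c` there is no walk from `x` to `y`
  have key : ∀ (T : Set (Fin 7)), c ∉ T → ∀ (u w : T), (G7.induce T).Walk u w →
      s u.1 = true → s w.1 = true := by
    intro T hT u w p
    induction p with
    | nil => exact id
    | cons h p ih =>
      rename_i u v w
      intro hu
      apply ih
      by_contra hv
      have h1 : G7.Adj u.1 v.1 := h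
      rcases hsep _ _ hu (by simpa using hv) h1 with h2 | h2
      · exact hT (h2 ▸ u.2)
      · exact hT (h2 ▸ v.2)
  by_cases hc : c ∈ B
  · obtain ⟨p⟩ := hB.1.2 c hc ⟨x, hx, fun h => hcx h.symm⟩ ⟨y, hy, fun h => hcy h.symm⟩
    have h3 := key _ (fun h => h.2 rfl) _ _ p hxs
    rw [hys] at h3
    exact Bool.noConfusion h3
  · obtain ⟨p⟩ := hB.1.1.preconnected ⟨x, hx⟩ ⟨y, hy⟩
    have h3 := key _ hc _ _ p hxs
    rw [hys] at h3
    exact Bool.noConfusion h3

theorem adj7 : adj G7 = A7.map (Int.castRingHom ℝ) := by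
  ext i j
  have h : ∀ i j : Fin 7, e7 i j = 0 ∨ e7 i j = 1 := by decide
  rw [Matrix.map_apply]
  unfold adj A7
  by_cases h1 : e7 i j = 1
  · rw [if_pos (show G7.Adj i j from h1), h1]
    simp
  · rw [if_neg (show ¬ G7.Adj i j from h1), (h i j).resolve_right h1]
    simp

theorem det7 : (adj G7).det ≠ 0 := by
  have h0 : (A7.map (Int.castRingHom ℝ)).det = ((A7.det : ℤ) : ℝ) :=
    ((Int.castRingHom ℝ).map_det A7).symm
  rw [adj7, h0]
  have h1 : A7 * B7 = (4 : ℤ) • (1 : Matrix (Fin 7) (Fin 7) ℤ) := by decide +kernel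
  have h2 : A7.det * B7.det = 4 ^ 7 := by
    rw [← Matrix.det_mul, h1, Matrix.det_smul, Matrix.det_one, Fintype.card_fin, mul_one]
  have h3 : A7.det ≠ 0 := by
    intro h
    rw [h, zero_mul] at h2
    norm_num at h2
  simpa using h3

/-- the kernel vector -/
def ker7 : Fin 7 → ℤ := ![2, 1, -1, -1, 1, -1, -1]

theorem result : ∃ (G₁ G₂ : SimpleGraph (Fin 7)) (v₁ v₂ : Fin 7),
    IsBlockGraph G₁ ∧ IsBlockGraph G₂ ∧ (adj G₁).det ≠ 0 ∧ (adj G₂).det ≠ 0 ∧
      (adj (joinEdge G₁ G₂ v₁ v₂)).det = 0 := by
  refine ⟨G7, G7, 0, 0, block7, block7, det7, det7, ?_⟩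
  rw [← Matrix.exists_mulVec_eq_zero_iff]
  refine ⟨Sum.elim (fun i => (ker7 i : ℝ)) (fun i => -(ker7 i : ℝ)), ?_, ?_⟩
  · intro h
    have := congrFun h (Sum.inl 0)
    simp [ker7] at this
  · have hA : ∀ i, ∑ j, adj G7 i j * (ker7 j : ℝ) = if i = 0 then 2 else 0 := by
      intro i
      rw [adj7]
      have h1 : ∀ i, ∑ j, e7 i j * ker7 j = if i = 0 then 2 else 0 := by decide
      have h2 := congrArg (Int.cast : ℤ → ℝ) (h1 i)
      push_cast at h2
      simp only [Matrix.map_apply, Int.coe_castRingHom]
      exact h2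
    have hk : (ker7 0 : ℝ) = 2 := by simp [ker7]
    ext x
    rcases x with i | i
    · simp only [Matrix.mulVec, dotProduct, Fintype.sum_sum_type, Sum.elim_inl, Sum.elim_inr,
        Pi.zero_apply]
      have h1 : ∀ j, adj (joinEdge G7 G7 0 0) (Sum.inl i) (Sum.inl j) = adj G7 i j := by
        intro j
        unfold adj joinEdge
        rfl
      have h2 : ∀ j, adj (joinEdge G7 G7 0 0) (Sum.inl i) (Sum.inr j) =
          if i = 0 ∧ j = 0 then 1 else 0 := by
        intro j
        unfold adj joinEdge
        congr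
      simp only [h1, h2, hA]
      by_cases hi : i = 0
      · subst hi
        simp [hk]
      · simp [hi]
    · simp only [Matrix.mulVec, dotProduct, Fintype.sum_sum_type, Sum.elim_inl, Sum.elim_inr,
        Pi.zero_apply]
      have h1 : ∀ j, adj (joinEdge G7 G7 0 0) (Sum.inr i) (Sum.inr j) = adj G7 i j := by
        intro j
        unfold adj joinEdge
        rfl
      have h2 : ∀ j, adj (joinEdge G7 G7 0 0) (Sum.inr i) (Sum.inl j) =
          if j = 0 ∧ i = 0 then 1 else 0 := by
        intro j
        unfold adj joinEdge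
        congr
      simp only [h1, h2, mul_neg, Finset.sum_neg_distrib, hA]
      by_cases hi : i = 0
      · subst hi
        simp [hk]
      · simp [hi]

end Pool.Agent.Results.MP_025d69_co.SingularJoin
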